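import Pool.Agent.H699.T.Base

/-!
# TSP-U1 (helper127): upper bound from a rooted tree and a set of pairs
-/

set_option autoImplicit false

namespace Pool.Agent.H127.T.U1

open Finset Classical
open Pool.Agent.H699.T

section tree

variable {α : Type} [Fintype α] {r : α} {p : α → α} {rk : α → ℕ}

theorem mem_anc {z u : α} : u ∈ anc p r z ↔ u ≠ r ∧ ∃ i : ℕ, p^[i] z = u := by
  unfold anc
  rw [mem_filter]
  exact ⟨fun h => h.2, fun h => ⟨mem_univ _, h⟩⟩

theorem iter_root (hr : p r = r) (i : ℕ) : p^[i] r = r := by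
  induction i with
  | zero => rfl
  | succ i ih => rw [Function.iterate_succ_apply, hr, ih]

theorem anc_root (hr : p r = r) : anc p r r = ∅ := by
  ext u
  rw [mem_anc]
  constructor
  · rintro ⟨h, i, hi⟩
    rw [iter_root hr] at hi
    exact absurd hi.symm h
  · intro h
    exact absurd h (notMem_empty u)

theorem rk_iter (h : ∀ v, v ≠ r → rk (p v) < rk v) (hr : p r = r) (i : ℕ) (z : α) :
    rk (p^[i] z) ≤ rk z := by
  induction i generalizing z with
  | zero => exact le_rfl
  | succ i ih =>
    rw [Function.iterate_succ_apply]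
    refine (ih (p z)).trans ?_
    by_cases hz : z = r
    · rw [hz, hr]
    · exact (h z hz).le

theorem notMem_anc (h : ∀ v, v ≠ r → rk (p v) < rk v) (hr : p r = r) {z : α} (hz : z ≠ r) :
    z ∉ anc p r (p z) := by
  rw [mem_anc]
  rintro ⟨-, i, hi⟩
  have h1 := rk_iter h hr i (p z)
  rw [hi] at h1
  exact absurd (h z hz) (not_lt.2 h1)

theorem anc_step {z : α} (hz : z ≠ r) : anc p r z = insert z (anc p r (p z)) := by
  ext u
  rw [mem_insert, mem_anc, mem_anc]
  constructor
  · rintro ⟨h, i, hi⟩
    cases i with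
    | zero => exact Or.inl hi.symm
    | succ i => exact Or.inr ⟨h, i, by rw [← hi, Function.iterate_succ_apply]⟩
  · rintro (h | ⟨h, i, hi⟩)
    · rw [h]
      exact ⟨hz, 0, rfl⟩
    · exact ⟨h, i + 1, by rw [Function.iterate_succ_apply, hi]⟩

/-- the key identity -/
theorem key (h : ∀ v, v ≠ r → rk (p v) < rk v) (hr : p r = r) (v : α) (n : ℕ) :
    ∀ z : α, rk z ≤ n → (if v = r then 1 else if v ∈ anc p r z then 1 else 0 : ℕ) =
      (if z = v then 1 else 0) +
        ∑ c ∈ (univ.erase r).filter (fun c => p c = v), if c ∈ anc p r z then 1 else 0 := by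
  induction n with
  | zero =>
    intro z hz
    have hzr : z = r := by
      by_contra hne
      have := h z hne
      omega
    subst hzr
    rw [anc_root hr]
    by_cases hv : v = z
    · subst hv
      simp
    · rw [if_neg hv, if_neg (fun e : z = v => hv e.symm)]
      simp
  | succ n ih =>
    intro z hz
    by_cases hzr : z = r
    · subst hzr
      rw [anc_root hr]
      by_cases hv : v = z
      · subst hv
        simp
      · rw [if_neg hv, if_neg (fun e : z = v => hv e.symm)]
        simp
    · have h1 := ih (p z) (by have := h z hzr; omega)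
      have hnot := notMem_anc h hr hzr
      have h2 : ∑ c ∈ (univ.erase r).filter (fun c => p c = v),
          (if c ∈ anc p r z then 1 else 0 : ℕ) =
          (if p z = v then 1 else 0) + ∑ c ∈ (univ.erase r).filter (fun c => p c = v),
            (if c ∈ anc p r (p z) then 1 else 0) := by
        have h3 : ∀ c ∈ (univ.erase r).filter (fun c => p c = v),
            (if c ∈ anc p r z then 1 else 0 : ℕ) =
            (if c = z then 1 else 0) + (if c ∈ anc p r (p z) then 1 else 0) := by
          intro c _
          rw [anc_step hzr]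
          by_cases hc : c = z
          · subst hc
            rw [if_pos (mem_insert_self _ _), if_pos rfl, if_neg hnot]
          · rw [if_neg hc, zero_add]
            simp only [mem_insert, hc, false_or]
        rw [sum_congr rfl h3, sum_add_distrib]
        congr 1
        rw [sum_ite_eq']
        by_cases hp : p z = v
        · rw [if_pos hp, if_pos]
          rw [mem_filter, mem_erase]
          exact ⟨⟨hzr, mem_univ _⟩, hp⟩
        · rw [if_neg hp, if_neg]
          rw [mem_filter]
          exact fun hh => hp hh.2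
      rw [h2, ← h1]
      by_cases hv : v = r
      · rw [if_pos hv, if_pos hv, if_neg (fun e => hzr (e.trans hv))]
      · rw [if_neg hv, if_neg hv, anc_step hzr]
        by_cases hvz : z = v
        · subst hvz
          rw [if_pos (mem_insert_self _ _), if_pos rfl, if_neg hnot]
        · rw [if_neg hvz, zero_add]
          have hvz' : ¬ (v = z) := fun e => hvz e.symm
          simp only [mem_insert, hvz', false_or]

end tree

/-- vanishing of a character sum -/
theorem char_sum {ι : Type} (E : Finset ι) (P : ι → Prop) [DecidablePred P]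
    (h : ∃ e ∈ E, P e) :
    ∑ M ∈ E.powerset, ∏ e ∈ M, (if P e then (-1 : ℝ) else 1) = 0 := by
  rw [← prod_one_add]
  obtain ⟨e, he, hP⟩ := h
  refine prod_eq_zero he ?_
  rw [if_pos hP]
  norm_num

/-- the set of vertices covered an odd number of times -/
noncomputable def oddS {α ι : Type} [Fintype α] (cov : ι → Finset α) (M : Finset ι) : Finset α :=
  univ.filter fun v => Odd (M.filter (fun e => v ∈ cov e)).card

theorem sum_oddS {α ι : Type} [Fintype α] (cov : ι → Finset α) (w : α → ℝ) (E M : Finset ι)
    (hM : M ⊆ E) : ∑ v ∈ oddS cov M, w v =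
      ∑ v ∈ E.biUnion cov, w v * ((1 - ∏ e ∈ M, (if v ∈ cov e then (-1 : ℝ) else 1)) / 2) := by
  have h1 : ∀ v, ∏ e ∈ M, (if v ∈ cov e then (-1 : ℝ) else 1) =
      (-1) ^ (M.filter (fun e => v ∈ cov e)).card := by
    intro v
    rw [prod_ite, prod_const, prod_const_one, mul_one]
  have hsub : oddS cov M ⊆ E.biUnion cov := by
    intro v hv
    unfold oddS at hv
    rw [mem_filter] at hv
    have h2 : (M.filter (fun e => v ∈ cov e)).card ≠ 0 := by
      intro h0
      rw [h0] at hv
      exact absurd hv.2 (by decide)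
    obtain ⟨e, he⟩ := card_pos.1 (Nat.pos_of_ne_zero h2)
    rw [mem_filter] at he
    exact mem_biUnion.2 ⟨e, hM he.1, he.2⟩
  rw [← sum_subset hsub (f := fun v => w v *
    ((1 - ∏ e ∈ M, (if v ∈ cov e then (-1 : ℝ) else 1)) / 2))]
  · refine sum_congr rfl fun v hv => ?_
    unfold oddS at hv
    rw [mem_filter] at hv
    rw [h1, hv.2.neg_one_pow]
    ring
  · intro v _ hv
    unfold oddS at hv
    rw [mem_filter] at hv
    have h3 : Even (M.filter (fun e => v ∈ cov e)).card := by
      rw [← Nat.not_odd_iff_even]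
      exact fun h => hv ⟨mem_univ _, h⟩
    rw [h1, h3.neg_one_pow]
    ring

/-- averaging over all subsets -/
theorem exists_M {α ι : Type} [Fintype α] (cov : ι → Finset α) (w : α → ℝ) (f : ι → ℝ)
    (E : Finset ι) : ∃ M ⊆ E, ∑ e ∈ M, f e - ∑ v ∈ oddS cov M, w v ≤
      (∑ e ∈ E, f e - ∑ v ∈ E.biUnion cov, w v) / 2 := by
  have hA : ∑ M ∈ E.powerset, ∑ e ∈ M, f e = ∑ _M ∈ E.powerset, (∑ e ∈ E, f e) / 2 := by
    have h1 : ∀ M ∈ E.powerset, ∑ e ∈ M, f e = ∑ e ∈ E, f e *
        ((1 - ∏ e' ∈ M, (if e' = e then (-1 : ℝ) else 1)) / 2) := by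
      intro M hM
      rw [mem_powerset] at hM
      rw [← sum_subset hM (f := fun e => f e *
        ((1 - ∏ e' ∈ M, (if e' = e then (-1 : ℝ) else 1)) / 2))]
      · refine sum_congr rfl fun e he => ?_
        rw [prod_ite_eq', if_pos he]
        ring
      · intro e _ he
        rw [prod_ite_eq', if_neg he]
        ring
    rw [sum_congr rfl h1, sum_comm]
    have h2 : ∀ e ∈ E, ∑ M ∈ E.powerset, f e *
        ((1 - ∏ e' ∈ M, (if e' = e then (-1 : ℝ) else 1)) / 2) =
        (E.powerset.card : ℝ) * (f e / 2) := by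
      intro e he
      rw [← mul_sum, ← sum_div, sum_sub_distrib,
        char_sum E (fun e' => e' = e) ⟨e, he, rfl⟩, sum_const, nsmul_eq_mul]
      ring
    rw [sum_congr rfl h2, ← mul_sum, ← sum_div, sum_const, nsmul_eq_mul]
  have hB : ∑ M ∈ E.powerset, ∑ v ∈ oddS cov M, w v =
      ∑ _M ∈ E.powerset, (∑ v ∈ E.biUnion cov, w v) / 2 := by
    rw [sum_congr rfl fun M hM => sum_oddS cov w E M (mem_powerset.1 hM), sum_comm]
    have h2 : ∀ v ∈ E.biUnion cov, ∑ M ∈ E.powerset, w v *
        ((1 - ∏ e ∈ M, (if v ∈ cov e then (-1 : ℝ) else 1)) / 2) =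
        (E.powerset.card : ℝ) * (w v / 2) := by
      intro v hv
      obtain ⟨e, he, hve⟩ := mem_biUnion.1 hv
      rw [← mul_sum, ← sum_div, sum_sub_distrib,
        char_sum E (fun e => v ∈ cov e) ⟨e, he, hve⟩, sum_const, nsmul_eq_mul]
      ring
    rw [sum_congr rfl h2, ← mul_sum, ← sum_div, sum_const, nsmul_eq_mul]
  obtain ⟨M, hM, h⟩ := exists_le_of_sum_le (s := E.powerset)
    (f := fun M => ∑ e ∈ M, f e - ∑ v ∈ oddS cov M, w v)
    (g := fun _ => (∑ e ∈ E, f e - ∑ v ∈ E.biUnion cov, w v) / 2)
    ⟨∅, empty_mem_powerset E⟩ (by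
      rw [sum_sub_distrib, hA, hB, ← sum_sub_distrib]
      refine le_of_eq (sum_congr rfl fun _ _ => ?_)
      ring)
  exact ⟨M, mem_powerset.1 hM, h⟩

/-- the list of edges -/
noncomputable def edges {α : Type} [Fintype α] (r : α) (p : α → α) (O : Finset α)
    (M : Finset (α × α)) : List (α × α) :=
  (univ.erase r).toList.flatMap
    (fun v => if v ∈ O then [(v, p v)] else [(v, p v), (v, p v)]) ++ M.toList

theorem sum_flatMap {β γ : Type} {R : Type} [AddCommMonoid R] (l : List β) (g : β → List γ)
    (f : γ → R) : ((l.flatMap g).map f).sum = (l.map fun b => ((g b).map f).sum).sum := by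
  induction l with
  | nil => rfl
  | cons a l ih =>
    rw [List.flatMap_cons, List.map_append, List.sum_append, ih, List.map_cons, List.sum_cons]

theorem sum_edges {α : Type} [Fintype α] {R : Type} [AddCommMonoid R] (r : α) (p : α → α)
    (O : Finset α) (M : Finset (α × α)) (f : α × α → R) :
    ((edges r p O M).map f).sum =
      ∑ v ∈ univ.erase r, (if v ∈ O then f (v, p v) else f (v, p v) + f (v, p v)) +
        ∑ e ∈ M, f e := by
  unfold edges
  rw [List.map_append, List.sum_append, sum_flatMap, Finset.sum_map_toList M f]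
  congr 1
  rw [← Finset.sum_map_toList (univ.erase r)]
  congr 1
  refine List.map_congr_left fun v _ => ?_
  split_ifs <;> simp

theorem mem_edges {α : Type} [Fintype α] {r : α} {p : α → α} {O : Finset α}
    {M : Finset (α × α)} {u : α} (hu : u ≠ r) : (u, p u) ∈ edges r p O M := by
  unfold edges
  rw [List.mem_append, List.mem_flatMap]
  refine Or.inl ⟨u, ?_, ?_⟩
  · rw [mem_toList, mem_erase]
    exact ⟨hu, mem_univ _⟩
  · split_ifs <;> simp

theorem conn {α : Type} [Fintype α] {r : α} {p : α → α} {rk : α → ℕ}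
    (h : ∀ v, v ≠ r → rk (p v) < rk v) (A : Finset α) (hA : A.Nonempty) (hA' : A ≠ univ) :
    ∃ u, u ≠ r ∧ ((u ∈ A ∧ p u ∉ A) ∨ (u ∉ A ∧ p u ∈ A)) := by
  by_contra hcon
  push Not at hcon
  have h1 : ∀ n : ℕ, ∀ u, rk u ≤ n → (u ∈ A ↔ r ∈ A) := by
    intro n
    induction n with
    | zero =>
      intro u hu
      by_cases hur : u = r
      · rw [hur]
      · have := h u hur
        omega
    | succ n ih =>
      intro u hu
      by_cases hur : u = r
      · rw [hur]
      · have h2 := ih (p u) (by have := h u hur; omega)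
        obtain ⟨h3, h4⟩ := hcon u hur
        rw [← h2]
        constructor
        · intro hu
          exact h3 hu
        · intro hpu
          by_contra hu
          exact h4 hu hpu
  obtain ⟨a, ha⟩ := hA
  have hr : r ∈ A := (h1 (rk a) a le_rfl).1 ha
  apply hA'
  exact eq_univ_of_forall fun u => (h1 (rk u) u le_rfl).2 hr

/-- the parity of the degrees -/
theorem parity {α : Type} [Fintype α] {r : α} {p : α → α} {rk : α → ℕ}
    (h : ∀ v, v ≠ r → rk (p v) < rk v) (hr : p r = r) (M : Finset (α × α)) (v : α) :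
    Even (((edges r p (oddS (fun e : α × α => symmDiff (anc p r e.1) (anc p r e.2)) M) M).map
      fun e => (if e.1 = v then 1 else 0) + (if e.2 = v then 1 else 0)).sum) := by
  set cov : α × α → Finset α := fun e => symmDiff (anc p r e.1) (anc p r e.2) with hcov
  set O := oddS cov M with hO
  rw [← ZMod.natCast_eq_zero_iff_even, sum_edges]
  push_cast
  -- the indicator of `O`
  have hind : ∀ u : α, ((if u ∈ O then 1 else 0 : ZMod 2)) =
      ∑ e ∈ M, ((if u ∈ anc p r e.1 then 1 else 0) + (if u ∈ anc p r e.2 then 1 else 0)) := by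
    intro u
    have h1 : ∀ e ∈ M, ((if u ∈ anc p r e.1 then 1 else 0 : ZMod 2) +
        (if u ∈ anc p r e.2 then 1 else 0)) = if u ∈ cov e then 1 else 0 := by
      intro e _
      rw [hcov]
      simp only [mem_symmDiff]
      by_cases a1 : u ∈ anc p r e.1 <;> by_cases a2 : u ∈ anc p r e.2 <;> simp [a1, a2]
      decide
    rw [sum_congr rfl h1, ← natCast_card_filter]
    rw [hO]
    unfold oddS
    simp only [mem_filter, mem_univ, true_and]
    by_cases h2 : Odd (M.filter (fun e => u ∈ cov e)).card
    · rw [if_pos h2]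
      exact ((ZMod.natCast_eq_one_iff_odd).2 h2).symm
    · rw [if_neg h2]
      rw [Nat.not_odd_iff_even] at h2
      exact ((ZMod.natCast_eq_zero_iff_even).2 h2).symm
  have h2 : ∀ x : ZMod 2, x + x = 0 := by decide
  have hmul : ∀ u : α, (if u ∈ O then ((if u = v then 1 else 0 : ZMod 2) +
      (if p u = v then 1 else 0)) else ((if u = v then 1 else 0) + (if p u = v then 1 else 0)) +
      ((if u = v then 1 else 0) + (if p u = v then 1 else 0))) =
      (if u = v then (if u ∈ O then 1 else 0) else 0) +
      (if p u = v then (if u ∈ O then 1 else 0) else 0) := by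
    intro u
    by_cases a1 : u ∈ O
    · simp only [a1, if_true]
    · simp only [a1, if_false, h2, ite_self]
  rw [sum_congr rfl fun u _ => hmul u]
  have hB : ∀ z : α, (∑ u ∈ univ.erase r,
      ((if u = v then (if u ∈ anc p r z then 1 else 0 : ZMod 2) else 0) +
      (if p u = v then (if u ∈ anc p r z then 1 else 0) else 0))) +
      (if z = v then 1 else 0) = if v = r then 1 else 0 := by
    intro z
    have hk := congrArg (Nat.cast : ℕ → ZMod 2) (key h hr v (rk z) z le_rfl)
    push_cast at hk
    rw [sum_add_distrib, ← sum_filter (s := univ.erase r) (p := fun u => p u = v), add_assoc,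
      add_comm (∑ u ∈ (univ.erase r).filter (fun u => p u = v), _) _, ← hk, sum_ite_eq']
    by_cases hv : v = r
    · rw [if_pos hv, if_pos hv, if_neg, zero_add]
      intro hh
      exact (mem_erase.1 hh).1 hv
    · rw [if_neg hv, if_neg hv, if_pos (mem_erase.2 ⟨hv, mem_univ _⟩), h2]
  have htot : (∑ u ∈ univ.erase r, ((if u = v then (if u ∈ O then 1 else 0 : ZMod 2) else 0) +
      (if p u = v then (if u ∈ O then 1 else 0) else 0))) =
      ∑ e ∈ M, ((∑ u ∈ univ.erase r,
      ((if u = v then (if u ∈ anc p r e.1 then 1 else 0 : ZMod 2) else 0) +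
      (if p u = v then (if u ∈ anc p r e.1 then 1 else 0) else 0))) +
      (∑ u ∈ univ.erase r,
      ((if u = v then (if u ∈ anc p r e.2 then 1 else 0 : ZMod 2) else 0) +
      (if p u = v then (if u ∈ anc p r e.2 then 1 else 0) else 0)))) := by
    rw [sum_congr rfl fun e _ => (sum_add_distrib (s := univ.erase r)).symm, sum_comm]
    refine sum_congr rfl fun u _ => ?_
    have hsp : ∀ (P : Prop) [Decidable P] (f g : α × α → ZMod 2),
        (if P then ∑ e ∈ M, (f e + g e) else 0) =
          ∑ e ∈ M, (if P then f e else 0) + ∑ e ∈ M, (if P then g e else 0) := by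
      intro P _ f g
      split_ifs
      · rw [sum_add_distrib]
      · rw [sum_const_zero, add_zero]
    rw [hind u, hsp, hsp, sum_add_distrib, sum_add_distrib, sum_add_distrib]
    ring
  rw [htot, ← sum_add_distrib]
  refine sum_eq_zero fun e _ => ?_
  calc _ = ((∑ u ∈ univ.erase r,
      ((if u = v then (if u ∈ anc p r e.1 then 1 else 0 : ZMod 2) else 0) +
      (if p u = v then (if u ∈ anc p r e.1 then 1 else 0) else 0))) +
      (if e.1 = v then 1 else 0)) + ((∑ u ∈ univ.erase r,
      ((if u = v then (if u ∈ anc p r e.2 then 1 else 0 : ZMod 2) else 0) +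
      (if p u = v then (if u ∈ anc p r e.2 then 1 else 0) else 0))) +
      (if e.2 = v then 1 else 0)) := by ring
    _ = 0 := by rw [hB, hB, h2]

theorem t_U1 : S_EULER → S_U1 := by
  intro hE α _ d hd r p rk h hr E
  obtain ⟨M, hME, hM⟩ := exists_M (fun e : α × α => symmDiff (anc p r e.1) (anc p r e.2))
    (fun v => d v (p v)) (fun e => d e.1 e.2) E
  set O := oddS (fun e : α × α => symmDiff (anc p r e.1) (anc p r e.2)) M with hO
  have h1 := hE α d hd (edges r p O M) (parity h hr M) (by
    intro A hA hA'
    obtain ⟨u, hu, hu2⟩ := conn h A hA hA'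
    exact ⟨(u, p u), mem_edges hu, hu2⟩)
  refine h1.trans ?_
  rw [sum_edges]
  have hsub : O ⊆ univ.erase r := by
    intro v hv
    rw [mem_erase]
    refine ⟨?_, mem_univ _⟩
    intro hvr
    rw [hO] at hv
    unfold oddS at hv
    rw [mem_filter] at hv
    have h2 : M.filter (fun e : α × α => v ∈ symmDiff (anc p r e.1) (anc p r e.2)) = ∅ := by
      rw [filter_eq_empty_iff]
      intro e _ he
      rw [mem_symmDiff] at he
      rcases he with he | he
      · exact (mem_anc.1 he.1).1 hvr
      · exact (mem_anc.1 he.1).1 hvr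
    rw [h2, card_empty] at hv
    exact absurd hv.2 (by decide)
  have h3 : ∑ v ∈ univ.erase r, (if v ∈ O then d v (p v) else d v (p v) + d v (p v)) =
      2 * ∑ v ∈ univ.erase r, d v (p v) - ∑ v ∈ O, d v (p v) := by
    have h4 : ∑ v ∈ O, d v (p v) = ∑ v ∈ univ.erase r, (if v ∈ O then d v (p v) else 0) := by
      rw [← sum_subset hsub (f := fun v => if v ∈ O then d v (p v) else 0)
        (fun v _ hv => if_neg hv)]
      exact sum_congr rfl fun v hv => (if_pos hv).symm
    rw [h4, mul_sum, ← sum_sub_distrib]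
    refine sum_congr rfl fun v _ => ?_
    split_ifs <;> ring
  rw [h3]
  linarith

end Pool.Agent.H127.T.U1
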